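import Pool.Agent.QU.Assemble

/-! A matroid is quaternionic unimodular if and only if it is representable over the skew
partial field `(ℍ, ⟨-1, p, q, r⟩)`, for every regular 4-simplex `0, 1, p, q, r` of side one. -/

open Quaternion

namespace Pool.Agent.Results.MP_a9b2cf_co.QURepresentable

universe u v w

/-- A skew partial field: a subgroup `G` containing `-1` of the group of units of a ring. -/
structure SkewPartialField (R : Type u) [Ring R] : Type u where
  /-- the group -/
  G : Subgroup Rˣ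
  neg_one_mem : -1 ∈ G

/-- `c` is an elementary chain of the chain group `C` (a left submodule of `R^E`). -/
def Elementary {R : Type u} [Ring R] {E : Type v} (C : Submodule R (E → R)) (c : E → R) : Prop :=
  c ∈ C ∧ c ≠ 0 ∧ ∀ c' ∈ C, c' ≠ 0 → ¬ Function.support c' ⊂ Function.support c

/-- `c` is `G`-primitive: all its entries lie in `G ∪ {0}`. -/
def Primitive {R : Type u} [Ring R] (P : SkewPartialField R) {E : Type v} (c : E → R) : Prop :=
  ∀ e, c e = 0 ∨ ∃ g ∈ P.G, c e = (g : R)

/-- `C` is a chain group of `P`: every elementary chain is `r c'` with `r` in the ring and `c'` a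
`G`-primitive chain of `C`. -/
def IsChainGroup {R : Type u} [Ring R] (P : SkewPartialField R) {E : Type v}
    (C : Submodule R (E → R)) : Prop :=
  ∀ c, Elementary C c → ∃ (r : R) (c' : E → R), c' ∈ C ∧ Primitive P c' ∧ c = r • c'

/-- The matroid `M` is representable over `P`: some chain group of `P` on the ground set of `M`
has as supports of its elementary chains exactly the cocircuits of `M`. -/
def Representable {R : Type u} [Ring R] (P : SkewPartialField R) {α : Type v} (M : Matroid α) :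
    Prop :=
  ∃ C : Submodule R (M.E → R), IsChainGroup P C ∧
    ∀ K : Set α, M.IsCocircuit K ↔ ∃ c, Elementary C c ∧ K = (↑) '' Function.support c

/-- The skew partial field `QU`: the quaternions with the group of unit quaternions. -/
noncomputable def QU : SkewPartialField ℍ[ℝ] where
  G :=
    { carrier := {g | ‖(g : ℍ[ℝ])‖ = 1}
      mul_mem' := by
        intro a b ha hb
        change ‖(a : ℍ[ℝ])‖ = 1 at ha
        change ‖(b : ℍ[ℝ])‖ = 1 at hb
        change ‖((a * b : (ℍ[ℝ])ˣ) : ℍ[ℝ])‖ = 1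
        rw [Units.val_mul, norm_mul, ha, hb, one_mul]
      one_mem' := by simp
      inv_mem' := by
        intro a ha
        change ‖(a : ℍ[ℝ])‖ = 1 at ha
        change ‖((a⁻¹ : (ℍ[ℝ])ˣ) : ℍ[ℝ])‖ = 1
        rw [Units.val_inv_eq_inv_val, norm_inv, ha, inv_one] }
  neg_one_mem := by
    show ‖((-1 : (ℍ[ℝ])ˣ) : ℍ[ℝ])‖ = 1
    simp

/-- The skew partial field `(ℍ, ⟨-1, p, q, r⟩)`. -/
noncomputable def Gen (p q r : ℍ[ℝ]) : SkewPartialField ℍ[ℝ] where
  G := Subgroup.closure {g | (g : ℍ[ℝ]) = -1 ∨ (g : ℍ[ℝ]) = p ∨ (g : ℍ[ℝ]) = q ∨ (g : ℍ[ℝ]) = r}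
  neg_one_mem := Subgroup.subset_closure (Or.inl (by simp))

/-- `0, 1, p, q, r` are the vertices of a regular 4-simplex with side one. -/
def RegularSimplex (p q r : ℍ[ℝ]) : Prop :=
  ∀ i j : Fin 5, i ≠ j → ‖(![0, 1, p, q, r] : Fin 5 → ℍ[ℝ]) i - (![0, 1, p, q, r] : Fin 5 → ℍ[ℝ]) j‖ = 1

theorem elementary_iff {E : Type v} (C : Submodule ℍ[ℝ] (E → ℍ[ℝ])) (c : E → ℍ[ℝ]) :
    Elementary C c ↔ Pool.Agent.QU.Elem C c := by
  unfold Elementary Pool.Agent.QU.Elem
  refine and_congr_right fun _ => and_congr_right fun _ => ?_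
  refine forall_congr' fun d => forall_congr' fun _ => forall_congr' fun _ => ?_
  constructor
  · intro h hsub e he
    by_contra hce
    apply h
    refine ⟨fun x hx hx' => hx (hsub x hx'), fun hh => ?_⟩
    exact hh hce he
  · rintro h ⟨h1, h2⟩
    apply h2
    intro x hx hx'
    exact hx (h (fun e he => by
      by_contra hde
      exact h1 hde he) x hx')

theorem RegularSimplex.spx {p q r : ℍ[ℝ]} (h : RegularSimplex p q r) :
    Pool.Agent.QU.Spx p q r := by
  have h1 := h 2 0 (by decide)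
  have h2 := h 2 1 (by decide)
  have h3 := h 3 0 (by decide)
  have h4 := h 3 1 (by decide)
  have h5 := h 4 0 (by decide)
  have h6 := h 4 1 (by decide)
  have h7 := h 2 3 (by decide)
  have h8 := h 2 4 (by decide)
  have h9 := h 3 4 (by decide)
  simp at h1 h2 h3 h4 h5 h6 h7 h8 h9
  exact ⟨⟨⟨h1, h2⟩, ⟨h3, h4⟩, h7⟩, ⟨h5, h6⟩, h8, h9⟩

/-- Main theorem: for every regular 4-simplex `0, 1, p, q, r` with side one, a (finite) matroid is
quaternionic unimodular if and only if it is representable over `(ℍ, ⟨-1, p, q, r⟩)`. -/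
theorem result (p q r : ℍ[ℝ]) (h : RegularSimplex p q r) {α : Type u} (M : Matroid α)
    [M.Finite] : Representable QU M ↔ Representable (Gen p q r) M := by
  classical
  have hS := h.spx
  constructor
  · rintro ⟨C, hC, hM⟩
    have : Fintype M.E := (Matroid.ground_finite M).fintype
    have hqu : Pool.Agent.QU.IsQU C := by
      intro c hc a b ha hb
      obtain ⟨x, c', hc', hp, rfl⟩ := hC c ((elementary_iff C c).2 hc)
      have key : ∀ e, (x • c') e ≠ 0 → ‖(x • c') e‖ = ‖x‖ := by
        intro e he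
        simp only [Pi.smul_apply, smul_eq_mul] at he ⊢
        rcases hp e with h0 | ⟨g, hg, hge⟩
        · exact absurd (by rw [h0, mul_zero]) he
        · have hg1 : ‖(g : ℍ[ℝ])‖ = 1 := hg
          rw [hge, norm_mul, hg1, mul_one]
      rw [key a ha, key b hb]
    obtain ⟨V', h1, h2⟩ := Pool.Agent.QU.qu_rep hS C hqu
    refine ⟨V', ?_, ?_⟩
    · intro c hc
      obtain ⟨x, c', k1, k2, k3⟩ := h1 c ((elementary_iff V' c).1 hc)
      exact ⟨x, c', k1, k3, k2⟩
    · intro K
      rw [hM K]
      constructor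
      · rintro ⟨c, hc, rfl⟩
        obtain ⟨c', hc', he⟩ := (h2 (Function.support c)).1 ⟨c, (elementary_iff C c).1 hc, rfl⟩
        exact ⟨c', (elementary_iff V' c').2 hc', by rw [he]⟩
      · rintro ⟨c, hc, rfl⟩
        obtain ⟨c', hc', he⟩ := (h2 (Function.support c)).2 ⟨c, (elementary_iff V' c).1 hc, rfl⟩
        exact ⟨c', (elementary_iff C c').2 hc', by rw [he]⟩
  · rintro ⟨C, hC, hM⟩
    refine ⟨C, ?_, hM⟩
    have hle : (Gen p q r).G ≤ QU.G := by
      refine (Subgroup.closure_le _).2 ?_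
      rintro g (hg | hg | hg | hg)
      · show ‖(g : ℍ[ℝ])‖ = 1
        rw [hg, norm_neg, norm_one]
      · show ‖(g : ℍ[ℝ])‖ = 1
        rw [hg]; exact hS.1.1.1
      · show ‖(g : ℍ[ℝ])‖ = 1
        rw [hg]; exact hS.1.2.1.1
      · show ‖(g : ℍ[ℝ])‖ = 1
        rw [hg]; exact hS.2.1.1
    intro c hc
    obtain ⟨x, c', h1, h2, h3⟩ := hC c hc
    refine ⟨x, c', h1, fun e => ?_, h3⟩
    rcases h2 e with h0 | ⟨g, hg, hge⟩
    · exact Or.inl h0
    · exact Or.inr ⟨g, hle hg, hge⟩

end Pool.Agent.Results.MP_a9b2cf_co.QURepresentable
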